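import Mathlib

/-!
# No averaging operator for surjections of `A(κ)^ℕ` onto `B(κ)`

`A(κ)` is `OnePoint κ` for a discrete space `κ`, and `A(κ)^ℕ` is `ℕ → OnePoint κ`.

Sketch of the proof.  Let `T` be an averaging operator for `u`.

1. (`localize`) By an inf-sup argument there is a nonempty open `W ⊆ B(κ)` such that for `x ∈ W`
   the functional `h ↦ T h x` has small variation on `u⁻¹(W) \ u⁻¹(x)`.
2. (`separation`) Hence, for a bump function `ψ` in `W`, a clopen set `E` containing `u⁻¹(x)` and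
   missing `u⁻¹(x')` makes `T (1_E * ψ ∘ u)` take different values at `x` and `x'`.
3. There are only finitely many clopen sets given by finitely many coordinates and finitely many
   points of `κ`, and each function in `C(B(κ))` depends on countably many coordinates.  So for
   suitable `x = b + δ e_{i₀}` and `x' = b + (δ/m) ∑_{j ∈ J} e_j` in `W` there are preimages
   `a` and `a'` with the same trace on the finite quotient.  Gluing the first `k` coordinates of
   `a` with the remaining ones of `a'` gives a point `a''` for which the sum of the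
   `|u(a'')_i|` exceeds `1`.
-/

open Set Topology

namespace Pool.Agent.Results.MP_3b565c_an.NoAveraging

/-- The set `B(κ)` of all `x ∈ ℝ^κ` with `∑ |x i| ≤ 1`; as a type it carries the topology
inherited from the product topology of `ℝ^κ`. -/
def B (κ : Type*) : Set (κ → ℝ) := {x | Summable (fun i => |x i|) ∧ ∑' i, |x i| ≤ 1}

lemma mem_B_iff {κ : Type*} (x : κ → ℝ) : x ∈ B κ ↔ ∀ s : Finset κ, ∑ i ∈ s, |x i| ≤ 1 := by
  constructor
  · rintro ⟨h1, h2⟩ s
    exact (h1.sum_le_tsum s (fun i _ => abs_nonneg _)).trans h2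
  · intro h
    have hs : Summable (fun i => |x i|) := summable_of_sum_le (fun i => abs_nonneg _) h
    exact ⟨hs, hs.tsum_le_of_sum_le h⟩

lemma isClosed_B (κ : Type*) : IsClosed (B κ) := by
  have : B κ = ⋂ s : Finset κ, {x : κ → ℝ | ∑ i ∈ s, |x i| ≤ 1} := by
    ext x
    simp only [mem_B_iff, mem_iInter, mem_ofPred_eq]
  rw [this]
  refine isClosed_iInter fun s => isClosed_le ?_ continuous_const
  fun_prop

instance instCompactSpaceB (κ : Type*) : CompactSpace (B κ) := by
  rw [← isCompact_iff_compactSpace]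
  refine IsCompact.of_isClosed_subset (isCompact_univ_pi (fun _ : κ => isCompact_Icc (a := (-1 : ℝ)) (b := 1)))
    (isClosed_B κ) ?_
  intro x hx i _
  have := (mem_B_iff x).1 hx {i}
  simp only [Finset.sum_singleton] at this
  exact abs_le.1 this

/-- Continuous functions are determined up to `ε` by finitely many members of a family of closed
relations whose intersection is the diagonal. -/
lemma finite_dependence {X ι : Type*} [TopologicalSpace X] [CompactSpace X]
    (R : ι → Set (X × X)) (hR : ∀ s, IsClosed (R s))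
    (hdiag : ∀ p : X × X, (∀ s, p ∈ R s) → p.1 = p.2) (f : X → ℝ) (hf : Continuous f)
    {ε : ℝ} (hε : 0 < ε) :
    ∃ t : Finset ι, ∀ x y, (∀ s ∈ t, (x, y) ∈ R s) → |f x - f y| < ε := by
  have hc : IsCompact {p : X × X | ε ≤ |f p.1 - f p.2|} := by
    apply IsClosed.isCompact
    exact isClosed_le continuous_const (by fun_prop)
  obtain ⟨t, ht⟩ := hc.elim_finite_subfamily_closed R hR (by
    rw [Set.eq_empty_iff_forall_notMem]
    rintro p ⟨hp1, hp2⟩
    have := hdiag p (fun s => mem_iInter.1 hp2 s)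
    simp only [mem_ofPred_eq, this, sub_self, abs_zero] at hp1
    exact absurd hp1 (not_le.2 hε))
  refine ⟨t, fun x y hxy => ?_⟩
  by_contra hcon
  rw [Set.eq_empty_iff_forall_notMem] at ht
  exact ht (x, y) ⟨not_lt.1 hcon, by simpa using hxy⟩

/-- A continuous real function on a compact subspace of a product depends on countably many
coordinates. -/
lemma countable_dependence {κ : Type*} (f : C(B κ, ℝ)) :
    ∃ D : Set κ, D.Countable ∧ ∀ x y : B κ, (∀ i ∈ D, x.1 i = y.1 i) → f x = f y := by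
  have h : ∀ n : ℕ, ∃ t : Finset κ, ∀ x y : B κ, (∀ s ∈ t, x.1 s = y.1 s) →
      |f x - f y| < 1 / ((n : ℝ) + 1) := by
    intro n
    obtain ⟨t, ht⟩ := finite_dependence (fun i : κ => {p : B κ × B κ | p.1.1 i = p.2.1 i})
      (fun i => isClosed_eq
        ((continuous_apply i).comp (continuous_subtype_val.comp continuous_fst))
        ((continuous_apply i).comp (continuous_subtype_val.comp continuous_snd)))
      (fun p hp => Subtype.ext (funext hp)) f f.continuous
      (ε := 1 / ((n : ℝ) + 1)) (by positivity)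
    exact ⟨t, fun x y hxy => ht x y hxy⟩
  choose t ht using h
  refine ⟨⋃ n, (t n : Set κ), Set.countable_iUnion fun n => (t n).countable_toSet, ?_⟩
  intro x y hxy
  have h1 : ∀ n : ℕ, |f x - f y| < 1 / ((n : ℝ) + 1) := fun n =>
    ht n x y fun s hs => hxy s (mem_iUnion.2 ⟨n, hs⟩)
  by_contra hne
  have h2 : 0 < |f x - f y| := abs_pos.2 (sub_ne_zero.2 hne)
  obtain ⟨n, hn⟩ := exists_nat_one_div_lt h2
  exact absurd (h1 n) (not_lt.2 hn.le)

/-- A continuous real function on `A(κ)^ℕ` depends, up to `ε`, on finitely many coordinates and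
finitely many points of `κ`. -/
lemma finite_dependence_A {κ : Type*} [TopologicalSpace κ] [DiscreteTopology κ]
    (f : (ℕ → OnePoint κ) → ℝ) (hf : Continuous f) {ε : ℝ} (hε : 0 < ε) :
    ∃ (n : ℕ) (H : Finset κ), ∀ a a' : ℕ → OnePoint κ,
      (∀ l < n, ∀ j ∈ H, (a l = (j : OnePoint κ) ↔ a' l = (j : OnePoint κ))) →
        |f a - f a'| < ε := by
  classical
  have hclopen : ∀ j : κ, IsClopen ({(j : OnePoint κ)} : Set (OnePoint κ)) := by
    intro j
    refine ⟨isClosed_singleton, ?_⟩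
    have : ({(j : OnePoint κ)} : Set (OnePoint κ)) = (fun x : κ => (x : OnePoint κ)) '' {j} := by
      simp
    rw [this]
    exact OnePoint.isOpenEmbedding_coe.isOpenMap _ (isOpen_discrete _)
  obtain ⟨t, ht⟩ := finite_dependence
    (fun s : ℕ × κ => {p : (ℕ → OnePoint κ) × (ℕ → OnePoint κ) |
      (p.1 s.1 = (s.2 : OnePoint κ) ↔ p.2 s.1 = (s.2 : OnePoint κ))})
    (by
      rintro ⟨l, j⟩
      have h1 : IsClopen {p : (ℕ → OnePoint κ) × (ℕ → OnePoint κ) | p.1 l = (j : OnePoint κ)} :=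
        (hclopen j).preimage (f := fun p : (ℕ → OnePoint κ) × (ℕ → OnePoint κ) => p.1 l)
          (by fun_prop)
      have h2 : IsClopen {p : (ℕ → OnePoint κ) × (ℕ → OnePoint κ) | p.2 l = (j : OnePoint κ)} :=
        (hclopen j).preimage (f := fun p : (ℕ → OnePoint κ) × (ℕ → OnePoint κ) => p.2 l)
          (by fun_prop)
      have h3 : {p : (ℕ → OnePoint κ) × (ℕ → OnePoint κ) |
          (p.1 l = (j : OnePoint κ) ↔ p.2 l = (j : OnePoint κ))} =
          ({p : (ℕ → OnePoint κ) × (ℕ → OnePoint κ) | p.1 l = (j : OnePoint κ)} ∩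
            {p : (ℕ → OnePoint κ) × (ℕ → OnePoint κ) | p.2 l = (j : OnePoint κ)}) ∪
          ({p : (ℕ → OnePoint κ) × (ℕ → OnePoint κ) | p.1 l = (j : OnePoint κ)}ᶜ ∩
            {p : (ℕ → OnePoint κ) × (ℕ → OnePoint κ) | p.2 l = (j : OnePoint κ)}ᶜ) := by
        ext p
        simp only [mem_ofPred_eq, mem_union, mem_inter_iff, mem_compl_iff]
        tauto
      rw [h3]
      exact ((h1.inter h2).union (h1.compl.inter h2.compl)).isClosed)
    (by
      rintro ⟨a, a'⟩ h
      funext l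
      simp only [mem_ofPred_eq, Prod.forall] at h
      show a l = a' l
      induction h1 : a l using OnePoint.rec with
      | infty =>
        induction h2 : a' l using OnePoint.rec with
        | infty => rfl
        | coe j =>
          have := (h l j).2 h2
          rw [h1] at this
          exact absurd this (OnePoint.infty_ne_coe j)
      | coe j => exact ((h l j).1 h1).symm)
    f hf hε
  refine ⟨t.sup Prod.fst + 1, t.image Prod.snd, fun a a' h => ht a a' ?_⟩
  rintro ⟨l, j⟩ hs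
  exact h l (Nat.lt_succ_of_le (Finset.le_sup (f := Prod.fst) hs)) j
    (Finset.mem_image.2 ⟨(l, j), hs, rfl⟩)


section localize

variable {L K : Type*} [TopologicalSpace L] [CompactSpace L] [TopologicalSpace K] [CompactSpace K]

/-- Localisation: there is a nonempty open `W` such that for `x ∈ W` the measure representing
`h ↦ T h x` has mass at most `ε` on `u⁻¹(W \ V)` for all neighbourhoods `V` of `x`. -/
lemma localize [Nonempty K] (u : C(L, K)) (T : C(L, ℝ) →L[ℝ] C(K, ℝ)) {ε : ℝ} (hε : 0 < ε) :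
    ∃ W : Set K, IsOpen W ∧ W.Nonempty ∧ ∀ x ∈ W, ∀ V : Set K, IsOpen V → x ∈ V →
      ∀ h : C(L, ℝ), ‖h‖ ≤ 1 → (∀ a, u a ∉ W → h a = 0) → (∀ a, u a ∈ V → h a = 0) →
        T h x ≤ ε := by
  classical
  let S : Set K → Set ℝ := fun W =>
    {r | ∃ x ∈ W, ∃ h : C(L, ℝ), ‖h‖ ≤ 1 ∧ (∀ a, u a ∉ W → h a = 0) ∧ r = T h x}
  have hbdd : ∀ W, BddAbove (S W) := by
    intro W
    refine ⟨‖T‖, ?_⟩
    rintro r ⟨x, hx, h, hh, -, rfl⟩
    calc T h x ≤ |T h x| := le_abs_self _
      _ ≤ ‖T h‖ := by simpa using (T h).norm_coe_le_norm x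
      _ ≤ ‖T‖ * ‖h‖ := T.le_opNorm h
      _ ≤ ‖T‖ * 1 := by gcongr
      _ = ‖T‖ := mul_one _
  have hzero : ∀ W : Set K, W.Nonempty → (0 : ℝ) ∈ S W := by
    rintro W ⟨x, hx⟩
    exact ⟨x, hx, 0, by simp, by simp, by simp⟩
  let Λ : Set K → ℝ := fun W => sSup (S W)
  let P : Set ℝ := {r | ∃ W : Set K, IsOpen W ∧ W.Nonempty ∧ r = Λ W}
  have hPne : P.Nonempty := ⟨Λ univ, univ, isOpen_univ, univ_nonempty, rfl⟩
  have hPbdd : BddBelow P := by
    refine ⟨0, ?_⟩
    rintro r ⟨W, -, hW, rfl⟩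
    exact le_csSup (hbdd W) (hzero W hW)
  obtain ⟨r, ⟨W, hWo, hWne, rfl⟩, hr⟩ := exists_lt_of_csInf_lt hPne
    (show sInf P < sInf P + ε by linarith)
  refine ⟨W, hWo, hWne, ?_⟩
  intro x hx V hVo hxV h hh hhW hhV
  by_contra hcon
  rw [not_le] at hcon
  let V' : Set K := (V ∩ W) ∩ {y | ε < T h y}
  have hV'o : IsOpen V' :=
    (hVo.inter hWo).inter (isOpen_lt continuous_const (T h).continuous)
  have hV'ne : V'.Nonempty := ⟨x, ⟨hxV, hx⟩, hcon⟩
  have hΛ : sInf P ≤ Λ V' := csInf_le hPbdd ⟨V', hV'o, hV'ne, rfl⟩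
  have hlt : Λ W - ε < Λ V' := by linarith
  obtain ⟨r', ⟨y, hy, h', hh', hh'V, rfl⟩, hr'⟩ :=
    exists_lt_of_lt_csSup ⟨0, hzero V' hV'ne⟩ hlt
  have hsum : T (h + h') y ∈ S W := by
    refine ⟨y, hy.1.2, h + h', ?_, ?_, rfl⟩
    · rw [ContinuousMap.norm_le _ zero_le_one]
      intro a
      rw [ContinuousMap.add_apply]
      by_cases ha : u a ∈ V
      · rw [hhV a ha, zero_add]
        exact (h'.norm_coe_le_norm a).trans hh'
      · rw [hh'V a (fun h => ha h.1.1), add_zero]
        exact (h.norm_coe_le_norm a).trans hh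
    · intro a ha
      rw [ContinuousMap.add_apply, hhW a ha, hh'V a (fun h => ha h.1.2), add_zero]
  have h1 : T (h + h') y ≤ Λ W := le_csSup (hbdd W) hsum
  rw [map_add, ContinuousMap.add_apply] at h1
  have h2 : ε < T h y := hy.2
  linarith

/-- The only consequence of the existence of an averaging operator that is used below. -/
lemma separation [T2Space K] [Nonempty K] (u : C(L, K)) (T : C(L, ℝ) →L[ℝ] C(K, ℝ))
    (hT : ∀ g : C(K, ℝ), T (g.comp u) = g) :
    ∃ (W : Set K) (Φ : Set L → C(K, ℝ)), IsOpen W ∧ W.Nonempty ∧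
      ∀ E : Set L, IsClopen E → ∀ x ∈ W, ∀ x' ∈ W, (∀ a, u a = x → a ∈ E) →
        Φ E x = Φ E x' → ∃ a, u a = x' ∧ a ∈ E := by
  classical
  obtain ⟨W₁, hW₁o, ⟨y, hy⟩, hW₁⟩ := localize u T (ε := 1 / 4) (by norm_num)
  obtain ⟨ψ, hψ0, hψ1, hψ⟩ := exists_continuous_zero_one_of_isClosed
    (s := W₁ᶜ) (t := {y}) hW₁o.isClosed_compl isClosed_singleton
    (by simpa using hy)
  -- the indicator function of a clopen set, multiplied by `ψ ∘ u`
  let χ : Set L → C(L, ℝ) := fun E =>
    if hE : IsClopen E then (LocallyConstant.charFn ℝ hE : C(L, ℝ)) else 0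
  have hχ1 : ∀ E : Set L, IsClopen E → ∀ a ∈ E, χ E a = 1 := by
    intro E hE a ha
    simp only [χ, dif_pos hE]
    exact (LocallyConstant.charFn_eq_one ℝ a hE).2 ha
  have hχ0 : ∀ E : Set L, IsClopen E → ∀ a, a ∉ E → χ E a = 0 := by
    intro E hE a ha
    simp only [χ, dif_pos hE]
    exact (LocallyConstant.charFn_eq_zero ℝ a hE).2 ha
  refine ⟨{x | 1 / 2 < ψ x}, fun E => T (χ E * ψ.comp u), isOpen_lt continuous_const ψ.continuous,
    ⟨y, ?_⟩, ?_⟩
  · show 1 / 2 < ψ y
    rw [hψ1 (mem_singleton y)]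
    norm_num
  intro E hE x hx x' hx' hxE heq
  by_contra hcon
  push Not at hcon
  have hxW : ∀ z : K, 1 / 2 < ψ z → z ∈ W₁ := by
    intro z hz
    by_contra hzW
    have := hψ0 (show z ∈ W₁ᶜ from hzW)
    simp only [this, Pi.zero_apply] at hz
    norm_num at hz
  -- the closed map property
  have hclosed : ∀ F : Set L, IsClosed F → IsOpen (u '' F)ᶜ := fun F hF =>
    (hF.isCompact.image u.continuous).isClosed.isOpen_compl
  have hnorm : ∀ g : C(L, ℝ), (∀ a, 0 ≤ g a ∧ g a ≤ 1) → ‖g‖ ≤ 1 := by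
    intro g hg
    rw [ContinuousMap.norm_le _ zero_le_one]
    intro a
    rw [Real.norm_of_nonneg (hg a).1]
    exact (hg a).2
  have hχmem : ∀ E : Set L, IsClopen E → ∀ a, 0 ≤ (χ E * ψ.comp u) a ∧ (χ E * ψ.comp u) a ≤ 1 := by
    intro E hE a
    rw [ContinuousMap.mul_apply, ContinuousMap.comp_apply]
    by_cases ha : a ∈ E
    · rw [hχ1 E hE a ha, one_mul]
      exact hψ (u a)
    · rw [hχ0 E hE a ha, zero_mul]
      exact ⟨le_rfl, zero_le_one⟩
  have hvanW : ∀ E : Set L, ∀ a, u a ∉ W₁ → (χ E * ψ.comp u) a = 0 := by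
    intro E a ha
    rw [ContinuousMap.mul_apply, ContinuousMap.comp_apply, hψ0 (show u a ∈ W₁ᶜ from ha)]
    simp
  -- general estimate: if the fibre over `z` misses the clopen set `E` then the value is small
  have hsmall : ∀ E : Set L, IsClopen E → ∀ z : K, 1 / 2 < ψ z → (∀ a, u a = z → a ∉ E) →
      T (χ E * ψ.comp u) z ≤ 1 / 4 := by
    intro E hE z hz hzE
    refine hW₁ z (hxW z hz) (u '' E)ᶜ (hclosed E hE.1) ?_ _ (hnorm _ (hχmem E hE)) (hvanW E) ?_
    · rintro ⟨a, ha, hau⟩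
      exact hzE a hau ha
    · intro a ha
      have haE : a ∉ E := fun h => ha ⟨a, h, rfl⟩
      rw [ContinuousMap.mul_apply, hχ0 E hE a haE, zero_mul]
  have h1 : T (χ E * ψ.comp u) x' ≤ 1 / 4 := hsmall E hE x' hx' (fun a ha => hcon a ha)
  have h2 : T (χ Eᶜ * ψ.comp u) x ≤ 1 / 4 :=
    hsmall Eᶜ hE.compl x hx (fun a ha h => h (hxE a ha))
  have h3 : χ E * ψ.comp u + χ Eᶜ * ψ.comp u = ψ.comp u := by
    ext a
    rw [ContinuousMap.add_apply, ContinuousMap.mul_apply, ContinuousMap.mul_apply]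
    by_cases ha : a ∈ E
    · rw [hχ1 E hE a ha, hχ0 Eᶜ hE.compl a (fun h => h ha)]
      ring
    · rw [hχ0 E hE a ha, hχ1 Eᶜ hE.compl a ha]
      ring
  have h4 : T (χ E * ψ.comp u) x + T (χ Eᶜ * ψ.comp u) x = ψ x := by
    rw [← ContinuousMap.add_apply, ← map_add, h3, hT ψ]
  have h5 : T (χ E * ψ.comp u) x = T (χ E * ψ.comp u) x' := heq
  have h6 : 1 / 2 < ψ x := hx
  linarith

end localize


/-- Weak form of the Delta-system lemma. -/
lemma delta_system {κ : Type*} [Uncountable κ] (H : κ → Finset κ) :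
    ∃ (I : Set κ) (R : Finset κ), ¬ I.Countable ∧ ∀ j, j ∉ R → {i ∈ I | j ∈ H i}.Countable := by
  classical
  -- uncountably many members have the same cardinality
  obtain ⟨N, hN⟩ : ∃ N : ℕ, ¬ {i : κ | (H i).card = N}.Countable := by
    by_contra hcon
    push Not at hcon
    have : (univ : Set κ).Countable := by
      have h : (univ : Set κ) = ⋃ N : ℕ, {i : κ | (H i).card = N} := by
        ext i; simp
      rw [h]
      exact Set.countable_iUnion hcon
    exact not_countable_univ this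
  let P : ℕ → Prop := fun n => ∃ R : Finset κ, R.card = n ∧
    ¬ {i : κ | (H i).card = N ∧ R ⊆ H i}.Countable
  have hP0 : P 0 := ⟨∅, rfl, by simpa using hN⟩
  have hPle : ∀ n, P n → n ≤ N := by
    rintro n ⟨R, hR, hun⟩
    have hne : {i : κ | (H i).card = N ∧ R ⊆ H i}.Nonempty := by
      rw [Set.nonempty_iff_ne_empty]
      intro h
      rw [h] at hun
      exact hun Set.countable_empty
    obtain ⟨i, hi1, hi2⟩ := hne
    rw [← hR, ← hi1]
    exact Finset.card_le_card hi2
  obtain ⟨R, hRcard, hRun⟩ : P (Nat.findGreatest P N) :=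
    Nat.findGreatest_spec (Nat.zero_le N) hP0
  refine ⟨{i : κ | (H i).card = N ∧ R ⊆ H i}, R, hRun, ?_⟩
  intro j hj
  by_contra hcon
  have hP : P (R.card + 1) := by
    refine ⟨insert j R, Finset.card_insert_of_notMem hj, fun hc => hcon (hc.mono ?_)⟩
    rintro i ⟨⟨hi1, hi2⟩, hi3⟩
    exact ⟨hi1, Finset.insert_subset hi3 hi2⟩
  have h1 : R.card + 1 ≤ Nat.findGreatest P N := Nat.le_findGreatest (hPle _ hP) hP
  omega

/-- From the weak Delta-system one can choose `m` indices outside a countable set with pairwise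
disjoint `H i \ R`. -/
lemma choose_indices {κ : Type*} (H : κ → Finset κ) (I : Set κ) (R : Finset κ)
    (hI : ¬ I.Countable) (hR : ∀ j, j ∉ R → {i ∈ I | j ∈ H i}.Countable) (D : Set κ)
    (hD : D.Countable) (m : ℕ) :
    ∃ J : Finset κ, J.card = m ∧ (∀ i ∈ J, i ∉ D) ∧
      ∀ i ∈ J, ∀ i' ∈ J, i ≠ i' → ∀ j, j ∉ R → j ∈ H i → j ∉ H i' := by
  classical
  induction m with
  | zero => exact ⟨∅, rfl, by simp, by simp⟩
  | succ m ih =>
    obtain ⟨J, hJcard, hJD, hJ⟩ := ih
    have hbad : (D ∪ (J : Set κ) ∪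
        ⋃ j ∈ (J.biUnion H \ R : Finset κ), {i ∈ I | j ∈ H i}).Countable := by
      refine (hD.union J.countable_toSet).union ?_
      refine Set.Countable.biUnion (Finset.countable_toSet (J.biUnion H \ R)) ?_
      intro j hj
      exact hR j (Finset.mem_sdiff.1 hj).2
    obtain ⟨i, hi, hibad⟩ : ∃ i ∈ I, i ∉ (D ∪ (J : Set κ) ∪
        ⋃ j ∈ (J.biUnion H \ R : Finset κ), {i ∈ I | j ∈ H i}) := by
      by_contra hcon
      push Not at hcon
      exact hI (hbad.mono hcon)
    simp only [mem_union, not_or] at hibad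
    obtain ⟨⟨hiD, hiJ⟩, hi3⟩ := hibad
    have hiJ' : i ∉ J := fun h => hiJ (Finset.mem_coe.2 h)
    have hdis : ∀ i' ∈ J, ∀ j, j ∉ R → j ∈ H i' → j ∉ H i := by
      intro i' hi' j hjR hj hji
      apply hi3
      rw [mem_iUnion₂]
      exact ⟨j, Finset.mem_sdiff.2 ⟨Finset.mem_biUnion.2 ⟨i', hi', hj⟩, hjR⟩, hi, hji⟩
    refine ⟨insert i J, ?_, ?_, ?_⟩
    · rw [Finset.card_insert_of_notMem hiJ', hJcard]
    · intro k hk
      rcases Finset.mem_insert.1 hk with rfl | hk
      · exact hiD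
      · exact hJD k hk
    · intro k hk k' hk' hkk' j hjR hjk hjk'
      rcases Finset.mem_insert.1 hk with h1 | h1
      · rcases Finset.mem_insert.1 hk' with h2 | h2
        · exact hkk' (h1.trans h2.symm)
        · exact hdis k' h2 j hjR hjk' (h1 ▸ hjk)
      · rcases Finset.mem_insert.1 hk' with h2 | h2
        · exact hdis k h1 j hjR hjk (h2 ▸ hjk')
        · exact hJ k h1 k' h2 hkk' j hjR hjk hjk'


/-- A bounded linear operator `T : C(L) → C(K)` is an averaging operator for `u : L → K` if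
`T (g ∘ u) = g` for every `g ∈ C(K)`. -/
def IsAveragingOperator {L K : Type*} [TopologicalSpace L] [CompactSpace L] [TopologicalSpace K]
    [CompactSpace K] (u : C(L, K)) (T : C(L, ℝ) →L[ℝ] C(K, ℝ)) : Prop :=
  ∀ g : C(K, ℝ), T (g.comp u) = g

/-- For uncountable `κ`, no continuous surjection from `A(κ)^ℕ` onto `B(κ)` admits an averaging
operator. -/
theorem result (κ : Type*) [Uncountable κ] [TopologicalSpace κ] [DiscreteTopology κ] :
    ¬ ∃ (u : C(ℕ → OnePoint κ, B κ)) (T : C(ℕ → OnePoint κ, ℝ) →L[ℝ] C(B κ, ℝ)),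
      Function.Surjective u ∧ IsAveragingOperator u T := by
  classical
  rintro ⟨u, T, -, hT⟩
  have : Nonempty (B κ) := ⟨⟨0, (mem_B_iff _).2 (by simp)⟩⟩
  obtain ⟨W, Φ, hWo, ⟨y, hy⟩, hsep⟩ := separation u T hT
  -- a basic neighbourhood inside `W`
  obtain ⟨F₀, t, ht0, ht1, hW⟩ : ∃ (F₀ : Finset κ) (t : ℝ), 0 ≤ t ∧ t < 1 ∧
      ∀ x : B κ, (∀ i ∈ F₀, x.1 i = t * y.1 i) → x ∈ W := by
    obtain ⟨O, hO, rfl⟩ := isOpen_induced_iff.1 hWo
    obtain ⟨F₀, U, hU, hUO⟩ := isOpen_pi_iff.1 hO y.1 hy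
    have h1 : ∀ᶠ t in 𝓝[<] (1 : ℝ), ∀ i ∈ F₀, t * y.1 i ∈ U i := by
      rw [Filter.eventually_all_finset]
      intro i hi
      have h2 : Filter.Tendsto (fun t : ℝ => t * y.1 i) (𝓝[<] 1) (𝓝 (y.1 i)) := by
        have : Filter.Tendsto (fun t : ℝ => t * y.1 i) (𝓝 1) (𝓝 (1 * y.1 i)) :=
          (continuous_id.mul continuous_const).tendsto 1
        rw [one_mul] at this
        exact this.mono_left nhdsWithin_le_nhds
      exact h2.eventually ((hU i hi).1.mem_nhds (hU i hi).2)
    have h3 : ∀ᶠ t in 𝓝[<] (1 : ℝ), t < 1 := self_mem_nhdsWithin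
    have h4 : ∀ᶠ t in 𝓝[<] (1 : ℝ), 0 ≤ t :=
      mem_nhdsWithin_of_mem_nhds (by
        filter_upwards [lt_mem_nhds (show (0 : ℝ) < 1 by norm_num)] with t ht using ht.le)
    obtain ⟨t, ht⟩ := (h1.and (h3.and h4)).exists
    refine ⟨F₀, t, ht.2.2, ht.2.1, fun x hx => hUO ?_⟩
    intro i hi
    rw [hx i hi]
    exact ht.1 i hi
  -- the room left
  set s₀ : ℝ := ∑ i ∈ F₀, |t * y.1 i| with hs₀
  have hs₀lt : s₀ < 1 := by
    have h1 : s₀ = t * ∑ i ∈ F₀, |y.1 i| := by
      rw [hs₀, Finset.mul_sum]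
      refine Finset.sum_congr rfl fun i _ => ?_
      rw [abs_mul, abs_of_nonneg ht0]
    have h2 : ∑ i ∈ F₀, |y.1 i| ≤ 1 := (mem_B_iff _).1 y.2 F₀
    rw [h1]
    calc t * ∑ i ∈ F₀, |y.1 i| ≤ t * 1 := by gcongr
      _ < 1 := by linarith
  set δ : ℝ := 1 - s₀ with hδ
  have hδpos : 0 < δ := by linarith
  have hbuild : ∀ (J : Finset κ) (v : ℝ), 0 ≤ v → J.card * v ≤ δ →
      (fun i => if i ∈ F₀ then t * y.1 i else if i ∈ J then v else 0) ∈ B κ := by
    intro J v hv hJv
    rw [mem_B_iff]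
    intro s
    have h1 : ∀ i ∈ s, |(if i ∈ F₀ then t * y.1 i else if i ∈ J then v else 0)| ≤
        (if i ∈ F₀ then |t * y.1 i| else 0) + (if i ∈ J then v else 0) := by
      intro i _
      by_cases h1 : i ∈ F₀
      · simp only [h1, if_true]
        have : (0 : ℝ) ≤ if i ∈ J then v else 0 := by split_ifs <;> simp [hv]
        linarith
      · simp only [h1, if_false]
        by_cases h2 : i ∈ J
        · simp [h2, abs_of_nonneg hv]
        · simp [h2]
    refine (Finset.sum_le_sum h1).trans ?_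
    rw [Finset.sum_add_distrib, Finset.sum_ite_mem, Finset.sum_ite_mem]
    have h2 : ∑ i ∈ s ∩ F₀, |t * y.1 i| ≤ s₀ :=
      Finset.sum_le_sum_of_subset_of_nonneg Finset.inter_subset_right (fun _ _ _ => abs_nonneg _)
    have h3 : ∑ i ∈ s ∩ J, v ≤ δ := by
      rw [Finset.sum_const, nsmul_eq_mul]
      refine le_trans ?_ hJv
      have : ((s ∩ J).card : ℝ) ≤ J.card := by
        exact_mod_cast Finset.card_le_card Finset.inter_subset_right
      gcongr
    linarith
  have hc : ∀ i : κ, Continuous (fun a : ℕ → OnePoint κ => (u a).1 i) := fun i =>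
    (continuous_apply i).comp (continuous_subtype_val.comp u.continuous)
  -- first family of approximations
  have hε₂ : 0 < δ / (4 * ((F₀.card : ℝ) + 1)) := by positivity
  choose n₂ H₂ h₂ using fun i : κ => finite_dependence_A _ (hc i) hε₂
  -- second family
  have hε₃ : 0 < δ / 4 := by positivity
  choose n₃ H₃ h₃ using fun i : κ => finite_dependence_A _ (hc i) hε₃
  obtain ⟨k, hk⟩ : ∃ k : ℕ, ¬ {i : κ | n₃ i = k}.Countable := by
    by_contra hcon
    push Not at hcon
    have : (univ : Set κ).Countable := by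
      have h : (univ : Set κ) = ⋃ N : ℕ, {i : κ | n₃ i = N} := by
        ext i; simp
      rw [h]
      exact Set.countable_iUnion hcon
    exact not_countable_univ this
  -- third family
  obtain ⟨m, hm⟩ : ∃ m : ℕ, m = 8 * k + 8 := ⟨_, rfl⟩
  have hmpos : (0 : ℝ) < m := by rw [hm]; positivity
  have hε₄ : 0 < δ / (4 * (m : ℝ)) := by positivity
  choose n₄ H₄ h₄ using fun i : κ => finite_dependence_A _ (hc i) hε₄
  obtain ⟨I, R, hI, hR⟩ := delta_system H₄
  -- the finite quotient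
  let F : Finset κ := F₀.biUnion H₂ ∪ R
  let n : ℕ := max k (F₀.sup n₂)
  let q : (ℕ → OnePoint κ) → (Fin n × F → Bool) := fun a p =>
    decide (a p.1 = ((p.2 : κ) : OnePoint κ))
  have hq : Continuous q := by
    refine continuous_pi fun p => ?_
    rw [continuous_bool_rng true]
    have h1 : IsClopen ({((p.2 : κ) : OnePoint κ)} : Set (OnePoint κ)) := by
      refine ⟨isClosed_singleton, ?_⟩
      have : ({((p.2 : κ) : OnePoint κ)} : Set (OnePoint κ)) =
          (fun x : κ => (x : OnePoint κ)) '' {(p.2 : κ)} := by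
        simp
      rw [this]
      exact OnePoint.isOpenEmbedding_coe.isOpenMap _ (isOpen_discrete _)
    have h2 := h1.preimage (f := fun a : ℕ → OnePoint κ => a p.1) (by fun_prop)
    convert h2 using 1
    ext a
    simp [q]
  have hqeq : ∀ a a' : ℕ → OnePoint κ, q a = q a' → ∀ l < n, ∀ j ∈ F,
      (a l = (j : OnePoint κ) ↔ a' l = (j : OnePoint κ)) := by
    intro a a' haa' l hl j hj
    have := congrFun haa' (⟨l, hl⟩, ⟨j, hj⟩)
    simpa [q] using this
  -- the countable set of coordinates seen by the functions `Φ`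
  choose D hD hD' using fun S : Set (Fin n × F → Bool) => countable_dependence (Φ (q ⁻¹' S))
  have hDc : (⋃ S, D S).Countable := Set.countable_iUnion hD
  obtain ⟨i₀, hi₀k, hi₀⟩ : ∃ i₀ ∈ {i : κ | n₃ i = k}, i₀ ∉ (⋃ S, D S) ∪ (F₀ : Set κ) := by
    by_contra hcon
    push Not at hcon
    exact hk ((hDc.union F₀.countable_toSet).mono hcon)
  have hi₀D : i₀ ∉ ⋃ S, D S := fun h => hi₀ (Or.inl h)
  have hi₀F : i₀ ∉ F₀ := fun h => hi₀ (Or.inr h)
  obtain ⟨J, hJcard, hJD, hJ⟩ := choose_indices H₄ I R hI hR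
    ((⋃ S, D S) ∪ (F₀ : Set κ) ∪ {i₀}) ((hDc.union F₀.countable_toSet).union
      (Set.countable_singleton i₀)) m
  have hJD1 : ∀ j ∈ J, j ∉ ⋃ S, D S := fun j hj h => hJD j hj (Or.inl (Or.inl h))
  have hJF : ∀ j ∈ J, j ∉ F₀ := fun j hj h => hJD j hj (Or.inl (Or.inr h))
  have hJi : i₀ ∉ J := fun h => hJD i₀ h (Or.inr rfl)
  -- the two points
  let x : B κ := ⟨_, hbuild {i₀} δ hδpos.le (by simp)⟩
  let x' : B κ := ⟨_, hbuild J (δ / m) (by positivity) (by
    rw [hJcard]; exact le_of_eq (by field_simp))⟩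
  have hxW : x ∈ W := hW x fun i hi => by simp [x, hi]
  have hx'W : x' ∈ W := hW x' fun i hi => by simp [x', hi]
  have hxx' : ∀ S, Φ (q ⁻¹' S) x = Φ (q ⁻¹' S) x' := by
    intro S
    refine hD' S x x' fun i hi => ?_
    have h1 : i ≠ i₀ := fun h => hi₀D (mem_iUnion.2 ⟨S, h ▸ hi⟩)
    have h2 : i ∉ J := fun h => hJD1 i h (mem_iUnion.2 ⟨S, hi⟩)
    simp [x, x', h1, h2]
  -- two preimages with the same image under `q`
  obtain ⟨a', ha'x', a, hax, haa'⟩ : ∃ a', u a' = x' ∧ ∃ a, u a = x ∧ q a = q a' := by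
    obtain ⟨a', h1, a, h2, h3⟩ := hsep (q ⁻¹' {s | ∃ a, u a = x ∧ q a = s})
      ((isClopen_discrete _).preimage hq) x hxW x' hx'W (fun a ha => ⟨a, ha, rfl⟩) (hxx' _)
    exact ⟨a', h1, a, h2, h3⟩
  have hqaa' := hqeq a a' haa'
  let a'' : ℕ → OnePoint κ := fun l => if l < k then a l else a' l
  have ha''1 : ∀ l < k, a'' l = a l := fun l hl => if_pos hl
  have ha''2 : ∀ l, ¬ l < k → a'' l = a' l := fun l hl => if_neg hl
  have hsum := (mem_B_iff _).1 (u a'').2 (F₀ ∪ insert i₀ J)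
  have hdisj : Disjoint F₀ (insert i₀ J) := by
    rw [Finset.disjoint_insert_right]
    refine ⟨hi₀F, ?_⟩
    rw [Finset.disjoint_left]
    intro i hi hiJ
    exact hJF i hiJ hi
  rw [Finset.sum_union hdisj, Finset.sum_insert hJi] at hsum
  -- first part
  have hpart1 : s₀ - δ / 4 ≤ ∑ i ∈ F₀, |(u a'').1 i| := by
    have h1 : ∀ i ∈ F₀, |t * y.1 i| - δ / (4 * ((F₀.card : ℝ) + 1)) ≤ |(u a'').1 i| := by
      intro i hi
      have h2 : |(u a'').1 i - (u a).1 i| < δ / (4 * ((F₀.card : ℝ) + 1)) := by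
        refine h₂ i a'' a fun l hl j hj => ?_
        by_cases hlk : l < k
        · rw [ha''1 l hlk]
        · rw [ha''2 l hlk]
          refine (hqaa' l ?_ j ?_).symm
          · exact lt_of_lt_of_le hl ((Finset.le_sup hi).trans (le_max_right _ _))
          · exact Finset.mem_union_left _ (Finset.mem_biUnion.2 ⟨i, hi, hj⟩)
      have h3 : (u a).1 i = t * y.1 i := by rw [hax]; simp [x, hi]
      rw [h3] at h2
      have h4 := abs_sub_abs_le_abs_sub (t * y.1 i) ((u a'').1 i)
      rw [abs_sub_comm] at h4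
      linarith
    have h5 := Finset.sum_le_sum h1
    rw [Finset.sum_sub_distrib, Finset.sum_const, nsmul_eq_mul] at h5
    have h6 : (F₀.card : ℝ) * (δ / (4 * ((F₀.card : ℝ) + 1))) ≤ δ / 4 := by
      rw [mul_div_assoc', div_le_div_iff₀ (by positivity) (by positivity)]
      nlinarith [hδpos, (Nat.cast_nonneg F₀.card : (0 : ℝ) ≤ F₀.card)]
    linarith
  -- second part
  have hpart2 : δ - δ / 4 ≤ |(u a'').1 i₀| := by
    have h2 : |(u a'').1 i₀ - (u a).1 i₀| < δ / 4 := by
      refine h₃ i₀ a'' a fun l hl j hj => ?_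
      have : l < k := by
        have h : n₃ i₀ = k := hi₀k
        omega
      rw [ha''1 l this]
    have h3 : (u a).1 i₀ = δ := by rw [hax]; simp [x, hi₀F]
    rw [h3] at h2
    have h4 := abs_sub_lt_iff.1 h2
    have h5 := le_abs_self ((u a'').1 i₀)
    linarith [h4.2]
  -- third part
  let bad : κ → Prop := fun j => ∃ l < k, ∃ h ∈ H₄ j, h ∉ R ∧
    (a l = (h : OnePoint κ) ∨ a' l = (h : OnePoint κ))
  have hbadcard : (J.filter bad).card ≤ 2 * k := by
    let val : ℕ × Bool → OnePoint κ := fun p => if p.2 then a p.1 else a' p.1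
    have h1 : J.filter bad ⊆ (Finset.range k ×ˢ (Finset.univ : Finset Bool)).biUnion
        (fun p => J.filter fun j => ∃ h ∈ H₄ j, h ∉ R ∧ val p = (h : OnePoint κ)) := by
      intro j hj
      obtain ⟨hjJ, l, hl, h, hh, hhR, hor⟩ := Finset.mem_filter.1 hj
      rw [Finset.mem_biUnion]
      rcases hor with hor | hor
      · exact ⟨(l, true), by simp [hl], Finset.mem_filter.2 ⟨hjJ, h, hh, hhR, by simp [val, hor]⟩⟩
      · exact ⟨(l, false), by simp [hl], Finset.mem_filter.2 ⟨hjJ, h, hh, hhR, by simp [val, hor]⟩⟩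
    have h2 : ∀ p ∈ (Finset.range k ×ˢ (Finset.univ : Finset Bool)),
        (J.filter fun j => ∃ h ∈ H₄ j, h ∉ R ∧ val p = (h : OnePoint κ)).card ≤ 1 := by
      intro p _
      rw [Finset.card_le_one]
      intro j hj j' hj'
      obtain ⟨hjJ, h, hh, hhR, hv⟩ := Finset.mem_filter.1 hj
      obtain ⟨hj'J, h', hh', hhR', hv'⟩ := Finset.mem_filter.1 hj'
      by_contra hne
      have heq : h = h' := OnePoint.coe_injective (hv.symm.trans hv')
      subst heq
      exact hJ j hjJ j' hj'J hne h hhR hh hh'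
    calc (J.filter bad).card ≤ _ := Finset.card_le_card h1
      _ ≤ ∑ p ∈ (Finset.range k ×ˢ (Finset.univ : Finset Bool)), _ := Finset.card_biUnion_le
      _ ≤ ∑ p ∈ (Finset.range k ×ˢ (Finset.univ : Finset Bool)), 1 := Finset.sum_le_sum h2
      _ = 2 * k := by simp [mul_comm]
  have hpart3 : 9 * δ / 16 ≤ ∑ j ∈ J, |(u a'').1 j| := by
    have h1 : ∀ j ∈ J.filter (fun j => ¬ bad j), 3 * δ / (4 * m) ≤ |(u a'').1 j| := by
      intro j hj
      obtain ⟨hjJ, hjbad⟩ := Finset.mem_filter.1 hj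
      have h2 : |(u a'').1 j - (u a').1 j| < δ / (4 * (m : ℝ)) := by
        refine h₄ j a'' a' fun l hl h hh => ?_
        by_cases hlk : l < k
        · rw [ha''1 l hlk]
          by_cases hhR : h ∈ R
          · exact hqaa' l (lt_of_lt_of_le hlk (le_max_left _ _)) h (Finset.mem_union_right _ hhR)
          · constructor
            · intro h3
              exact absurd ⟨l, hlk, h, hh, hhR, Or.inl h3⟩ hjbad
            · intro h3
              exact absurd ⟨l, hlk, h, hh, hhR, Or.inr h3⟩ hjbad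
        · rw [ha''2 l hlk]
      have h3 : (u a').1 j = δ / m := by rw [ha'x']; simp [x', hJF j hjJ, hjJ]
      rw [h3] at h2
      have h4 := (abs_sub_lt_iff.1 h2).2
      have h5 := le_abs_self ((u a'').1 j)
      have h6 : δ / m - δ / (4 * m) = 3 * δ / (4 * m) := by
        field_simp
        ring
      linarith
    have h7 : ∑ j ∈ J.filter (fun j => ¬ bad j), |(u a'').1 j| ≤ ∑ j ∈ J, |(u a'').1 j| :=
      Finset.sum_le_sum_of_subset_of_nonneg (Finset.filter_subset _ _) fun _ _ _ => abs_nonneg _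
    have h8 := Finset.sum_le_sum h1
    rw [Finset.sum_const, nsmul_eq_mul] at h8
    have h9 : (J.filter bad).card + (J.filter (fun j => ¬ bad j)).card = m := by
      rw [Finset.card_filter_add_card_filter_not, hJcard]
    have h10 : 3 * m ≤ 4 * (J.filter (fun j => ¬ bad j)).card := by omega
    have h11 : (3 : ℝ) * m ≤ 4 * ((J.filter (fun j => ¬ bad j)).card : ℝ) := by exact_mod_cast h10
    have h12 : 9 * δ / 16 ≤
        ((J.filter (fun j => ¬ bad j)).card : ℝ) * (3 * δ / (4 * m)) := by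
      rw [mul_div_assoc', div_le_div_iff₀ (by positivity) (by positivity)]
      nlinarith
    linarith
  linarith

end Pool.Agent.Results.MP_3b565c_an.NoAveraging
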